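import Pool.Agent.H705.RO.Stm4

/-! # Part HOD: Hoeffding for sums indexed by a finite set of pairs -/

set_option autoImplicit false

namespace Pool.Agent.H767.RO

open MeasureTheory ProbabilityTheory Filter Topology Finset
open Pool.Agent.H705.RO

theorem re_eq (c : ℂ) (v : ℝ) :
    2 * (c * Complex.exp (2 * (Real.pi : ℂ) * Complex.I * (v : ℂ))).re =
      2 * ‖c‖ * Real.cos (2 * Real.pi * v + Complex.arg c) := by
  have h1 : c * Complex.exp (2 * (Real.pi : ℂ) * Complex.I * (v : ℂ)) =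
      ((‖c‖ : ℝ) : ℂ) * Complex.exp (((2 * Real.pi * v + Complex.arg c : ℝ) : ℂ) * Complex.I) := by
    have h2 : c * Complex.exp (2 * (Real.pi : ℂ) * Complex.I * (v : ℂ)) =
        (((‖c‖ : ℝ) : ℂ) * Complex.exp ((Complex.arg c : ℂ) * Complex.I)) *
          Complex.exp (2 * (Real.pi : ℂ) * Complex.I * (v : ℂ)) := by
      rw [Complex.norm_mul_exp_arg_mul_I]
    rw [h2, mul_assoc, ← Complex.exp_add]
    push_cast
    ring_nf
  rw [h1, Complex.re_ofReal_mul, Complex.exp_ofReal_mul_I_re]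
  ring

theorem sum_fib (s : Finset (ℕ × ℕ)) (F : ℕ × ℕ → ℕ) (hF : Set.InjOn F (s : Set (ℕ × ℕ))) (f : ℕ → ℝ)
    (M : ℕ) (hM : ∀ z ∈ s, F z < M) (hf : ∀ m, m ∉ s.image F → f m = 0) :
    ∑ n ∈ Ico 0 M, f n = ∑ z ∈ s, f (F z) := by
  rw [← Finset.sum_image (g := F) (f := f) hF]
  symm
  refine Finset.sum_subset ?_ fun m _ hm => hf m hm
  intro m hm
  rw [Finset.mem_image] at hm
  obtain ⟨z, hz, rfl⟩ := hm
  rw [Finset.mem_Ico]
  exact ⟨Nat.zero_le _, hM z hz⟩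

/-- **HOD.** -/
theorem T_HOD (hHOE : P_HOE) : P_HOD := by
  intro Ω _ P X hX s F c lam v hF hlam hv hc
  obtain ⟨C, hC⟩ : ∃ C : ℕ → ℂ, ∀ m, C m = ∑ z ∈ s with F z = m, c z := ⟨_, fun _ => rfl⟩
  have hC1 : ∀ z ∈ s, C (F z) = c z := by
    intro z hz
    rw [hC]
    refine Finset.sum_eq_single_of_mem z (Finset.mem_filter.2 ⟨hz, rfl⟩) fun z' hz' hne => ?_
    rw [Finset.mem_filter] at hz'
    exact absurd (hF (Finset.mem_coe.2 hz'.1) (Finset.mem_coe.2 hz) hz'.2) hne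
  have hC0 : ∀ m, m ∉ s.image F → C m = 0 := by
    intro m hm
    rw [hC]
    refine Finset.sum_eq_zero fun z hz => ?_
    rw [Finset.mem_filter] at hz
    exact absurd (Finset.mem_image.2 ⟨z, hz.1, hz.2⟩) hm
  obtain ⟨M, hM⟩ : ∃ M : ℕ, ∀ z ∈ s, F z < M :=
    ⟨s.sup F + 1, fun z hz => Nat.lt_succ_of_le (Finset.le_sup (f := F) hz)⟩
  have h1 := hHOE Ω P X hX (fun m => 2 * ‖C m‖) (fun m => Complex.arg (C m)) (fun _ => 0) (fun _ => 0)
    (fun m => by positivity) 0 0 M lam v hlam hv (by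
      rw [sum_fib s F hF (fun m => (2 * ‖C m‖) ^ 2) M hM (fun m hm => by
        simp only [hC0 m hm, norm_zero, mul_zero]
        norm_num)]
      refine le_trans (le_of_eq ?_) hc
      rw [Finset.mul_sum]
      refine Finset.sum_congr rfl fun z hz => ?_
      rw [hC1 z hz]
      ring)
  refine le_trans (le_of_eq ?_) h1
  congr 1
  ext ω
  simp only [Set.mem_ofPred_eq]
  rw [sum_fib s F hF _ M hM (fun m hm => by
    simp only [wave, hC0 m hm, norm_zero, mul_zero, zero_mul])]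
  have h2 : ∑ z ∈ s, 2 * (c z * Complex.exp (2 * (Real.pi : ℂ) * Complex.I * (((X (F z) ω).2 : ℝ) : ℂ))).re =
      ∑ z ∈ s, wave (fun m => 2 * ‖C m‖) (fun m => Complex.arg (C m)) (fun _ => 0) (fun _ => 0)
        (fun n => X n ω) (F z) 0 := by
    refine Finset.sum_congr rfl fun z hz => ?_
    rw [re_eq]
    simp only [wave, hC1 z hz, mul_zero, zero_add]
  rw [h2]

end Pool.Agent.H767.RO
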